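import Pool.Agent.Helper15.T4.Stmts

set_option autoImplicit false

open Finset MeasureTheory Filter Topology

namespace Pool.Agent.Helper15.T4

theorem STRU_cov {H : Type} [Fintype H] (F : Finset (Sym2 H)) (h : H) :
    h ∈ cov F ↔ ∃ e ∈ F, h ∈ e := by
  classical
  unfold cov
  simp

theorem STRU_tv {n : ℕ} (F : Finset (Sym2 (HE n))) (v : Fin n) :
    v ∈ tv F ↔ ∃ h ∈ cov F, h.1 = v := by
  classical
  unfold tv
  rw [Finset.mem_image]

theorem STRU_EU {n : ℕ} {I : Type} [Fintype I] {κ : I → ℕ} (c : (i : I) → CycD n (κ i))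
    (e : Sym2 (HE n)) : e ∈ EU c ↔ ∃ i, e ∈ E (c i) := by
  classical
  unfold EU
  simp

theorem st_STRU (hSTR : ST_STR) : ST_STRU := by
  classical
  intro n I _ κ c hc
  obtain ⟨hv, hd⟩ := hc
  have key : ∀ i j (h : HE n), h ∈ cov (E (c i)) → h ∈ cov (E (c j)) → i = j := by
    intro i j h h1 h2
    by_contra hij
    have h3 : h.1 ∈ vs (c i) := by
      rw [← (hSTR n (κ i) (c i) (hv i)).2.2.1, STRU_tv]
      exact ⟨h, h1, rfl⟩
    have h4 : h.1 ∈ vs (c j) := by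
      rw [← (hSTR n (κ j) (c j) (hv j)).2.2.1, STRU_tv]
      exact ⟨h, h2, rfl⟩
    exact (Finset.disjoint_left.mp (hd i j hij)) h3 h4
  have hcov : ∀ h : HE n, h ∈ cov (EU c) ↔ ∃ i, h ∈ cov (E (c i)) := by
    intro h
    rw [STRU_cov]
    constructor
    · rintro ⟨e, he, hh⟩
      obtain ⟨i, hi⟩ := (STRU_EU c e).mp he
      exact ⟨i, (STRU_cov _ _).mpr ⟨e, hi, hh⟩⟩
    · rintro ⟨i, hi⟩
      obtain ⟨e, he, hh⟩ := (STRU_cov _ _).mp hi
      exact ⟨e, (STRU_EU c e).mpr ⟨i, he⟩, hh⟩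
  have htv : ∀ v, v ∈ tv (EU c) ↔ ∃ i, v ∈ vs (c i) := by
    intro v
    rw [STRU_tv]
    constructor
    · rintro ⟨h, hh, rfl⟩
      obtain ⟨i, hi⟩ := (hcov h).mp hh
      refine ⟨i, ?_⟩
      rw [← (hSTR n (κ i) (c i) (hv i)).2.2.1, STRU_tv]
      exact ⟨h, hi, rfl⟩
    · rintro ⟨i, hi⟩
      rw [← (hSTR n (κ i) (c i) (hv i)).2.2.1, STRU_tv] at hi
      obtain ⟨h, hh, rfl⟩ := hi
      exact ⟨h, (hcov h).mpr ⟨i, hh⟩, rfl⟩
  refine ⟨⟨?_, ?_, ?_⟩, ?_, ?_, htv, hcov⟩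
  · intro e he
    obtain ⟨i, hi⟩ := (STRU_EU c e).mp he
    exact (hSTR n (κ i) (c i) (hv i)).1.1 e hi
  · intro e he h hh
    exact (STRU_cov _ _).mpr ⟨e, he, hh⟩
  · intro h hh
    obtain ⟨i, hi⟩ := (hcov h).mp hh
    obtain ⟨e, ⟨he1, he2⟩, huni⟩ := (hSTR n (κ i) (c i) (hv i)).1.2.2 h hi
    refine ⟨e, ⟨(STRU_EU c e).mpr ⟨i, he1⟩, he2⟩, ?_⟩
    rintro e' ⟨he', hh'⟩
    obtain ⟨j, hj⟩ := (STRU_EU c e').mp he'
    have hij : i = j := key i j h hi ((STRU_cov _ _).mpr ⟨e', hj, hh'⟩)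
    subst hij
    exact huni e' ⟨hj, hh'⟩
  · unfold EU
    rw [Finset.card_biUnion]
    · exact Finset.sum_congr rfl (fun i _ => (hSTR n (κ i) (c i) (hv i)).2.1)
    · intro i _ j _ hij
      refine Finset.disjoint_left.mpr ?_
      intro e h1 h2
      induction e using Sym2.ind with
      | _ a b =>
        exact hij (key i j a ((STRU_cov _ _).mpr ⟨_, h1, Sym2.mem_mk_left a b⟩)
          ((STRU_cov _ _).mpr ⟨_, h2, Sym2.mem_mk_left a b⟩))
  · have h1 : tv (EU c) = univ.biUnion (fun i => vs (c i)) := by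
      ext v
      rw [htv, Finset.mem_biUnion]
      simp
    rw [h1, Finset.card_biUnion]
    · exact Finset.sum_congr rfl (fun i _ => (hSTR n (κ i) (c i) (hv i)).2.2.2.1)
    · intro i _ j _ hij
      exact hd i j hij

end Pool.Agent.Helper15.T4
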